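import Mathlib

namespace Pool.Agent.H.MP_70614a_al

open CategoryTheory CategoryTheory.Abelian CategoryTheory.Limits Set

def Low {P : Type} [PartialOrder P] (U' U : Set P) : Prop :=
  U' ⊆ U ∧ ∀ x ∈ U, ∀ y ∈ U', x ≤ y → x ∈ U'

theorem Low.c1 {P : Type} [PartialOrder P] {U' U : Set P} (h : Low U' U) (hU : U.OrdConnected) :
    U'.OrdConnected :=
  ⟨fun _ hx _ hy _ hz => h.2 _ (hU.out (h.1 hx) (h.1 hy) hz) _ hy hz.2⟩

theorem Low.c2 {P : Type} [PartialOrder P] {U' U : Set P} (h : Low U' U) (hU : U.OrdConnected) :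
    (U \ U').OrdConnected :=
  ⟨fun _ hx _ hy _ hz => ⟨hU.out hx.1 hy.1 hz, fun h' => hx.2 (h.2 _ hx.1 _ h' hz.1)⟩⟩

structure VD (P : Type) [PartialOrder P] (K : P) where
  V : Set P → ℕ → Prop
  mid : ∀ {U U' : Set P}, Low U' U → ∀ n, V U' n → V (U \ U') n → V U n
  quo : ∀ {U U' : Set P}, U.OrdConnected → Low U' U → ∀ n, V U' n → V U (n + 1) →
    V (U \ U') (n + 1)
  quo0 : ∀ {U U' : Set P}, U.OrdConnected → Low U' U → V U 0 → V (U \ U') 0
  sub : ∀ {U U' : Set P}, U.OrdConnected → Low U' U → ∀ n, V U n → V (U \ U') (n + 1) → V U' n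
  ret : ∀ {U U' : Set P}, U.OrdConnected → Low U' U → Low (U \ U') U → ∀ n, V U n → V U' n
  proj : ∀ x n, V (Iic x) (n + 1)
  proj0 : ∀ x, x ≠ K → V (Iic x) 0
  empty : ∀ n, V ∅ n

namespace VD

section po

variable {P : Type} [PartialOrder P] {K : P} (d : VD P K)

theorem low_Iio (x : P) : Low (Iio x) (Iic x) :=
  ⟨Iio_subset_Iic_self, fun _ _ _ hy h => lt_of_le_of_lt h hy⟩

theorem quo' {U U' : Set P} (hU : U.OrdConnected) (h : Low U' U) (h' : ∀ n, d.V U' n) (n : ℕ)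
    (h1 : d.V U n) : d.V (U \ U') n := by
  cases n with
  | zero => exact d.quo0 hU h h1
  | succ n => exact d.quo hU h n (h' n) h1

theorem projK (x : P) (hx : x ≠ K) (n : ℕ) : d.V (Iic x) n := by
  cases n with
  | zero => exact d.proj0 x hx
  | succ n => exact d.proj x n

theorem sing_succ (x : P) (n : ℕ) (h : d.V (Iio x) n) : d.V {x} (n + 1) := by
  rw [← Iic_sdiff_Iio_same]
  exact d.quo ordConnected_Iic (low_Iio x) n h (d.proj x n)

theorem sing_zero (x : P) (hx : x ≠ K) : d.V {x} 0 := by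
  rw [← Iic_sdiff_Iio_same]
  exact d.quo0 ordConnected_Iic (low_Iio x) (d.proj0 x hx)

theorem Iio_of_sing (x : P) (hx : x ≠ K) (n : ℕ) (h : d.V {x} (n + 1)) : d.V (Iio x) n := by
  rw [← Iic_sdiff_Iio_same] at h
  exact d.sub ordConnected_Iic (low_Iio x) n (d.projK x hx n) h

variable [Finite P]

theorem filt (n : ℕ) (U : Set P) (h : ∀ x ∈ U, d.V {x} n) : d.V U n := by
  induction hc : U.ncard using Nat.strong_induction_on generalizing U with
  | _ k ih =>
    rcases U.eq_empty_or_nonempty with rfl | hne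
    · exact d.empty n
    · obtain ⟨x, hx⟩ := (Set.toFinite U).exists_maximal hne
      have hl : Low (U \ {x}) U := ⟨sdiff_subset, fun y hy z hz hyz => ⟨hy, fun hyx => by
        rw [mem_singleton_iff] at hyx
        subst hyx
        exact hz.2 (le_antisymm (hx.2 hz.1 hyz) hyz)⟩⟩
      refine d.mid hl n (ih _ ?_ _ (fun y hy => h y hy.1) rfl) ?_
      · rw [← hc]
        exact Set.ncard_sdiff_singleton_lt_of_mem hx.1
      · rw [sdiff_sdiff_cancel_left (singleton_subset_iff.2 hx.1)]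
        exact h x hx.1

theorem not_ge (x : P) : ∀ n, ¬ K ≤ x → d.V {x} n := by
  induction x using WellFoundedLT.induction with
  | _ x ih =>
    intro n hx
    cases n with
    | zero => exact d.sing_zero x (fun h => hx h.ge)
    | succ n =>
      exact d.sing_succ x n (d.filt n _ fun y hy => ih y hy n fun h => hx (h.trans (le_of_lt hy)))

theorem height (ht : P → ℕ) (hm : StrictMono ht) (x : P) :
    ∀ n, ht x < ht K + n → d.V {x} n := by
  induction x using WellFoundedLT.induction with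
  | _ x ih =>
    intro n hx
    cases n with
    | zero => exact d.sing_zero x (fun h => by rw [h] at hx; omega)
    | succ n =>
      refine d.sing_succ x n (d.filt n _ fun y hy => ih y hy n ?_)
      have := hm hy
      omega

end po

variable {P : Type} [Lattice P] [Finite P] {K : P} (d : VD P K)

theorem union (a : P) (ha : ¬ a ≤ K) (M : Finset P) (hM : ∀ m ∈ M, a ≤ m) :
    ∀ n, d.V {x | ∃ m ∈ M, x ≤ m} n := by
  classical
  induction hc : M.card using Nat.strong_induction_on generalizing M with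
  | _ k ih =>
    intro n
    rcases M.eq_empty_or_nonempty with rfl | ⟨m, hm⟩
    · simpa using d.empty n
    · have hlt : (M.erase m).card < k := hc ▸ Finset.card_erase_lt_of_mem hm
      have h1 := ih _ hlt (M.erase m) (fun x hx => hM x (Finset.mem_of_mem_erase hx)) rfl
      have h2 := ih _ (lt_of_le_of_lt Finset.card_image_le hlt) ((M.erase m).image (· ⊓ m))
        (fun x hx => by
          obtain ⟨y, hy, rfl⟩ := Finset.mem_image.1 hx
          exact le_inf (hM y (Finset.mem_of_mem_erase hy)) (hM m hm)) rfl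
      have hl : Low (Iic m) {x | ∃ m ∈ M, x ≤ m} :=
        ⟨fun x hx => ⟨m, hm, hx⟩, fun _ _ _ hy h => le_trans h hy⟩
      refine d.mid hl n (d.projK m (fun h => ha (h ▸ hM m hm)) n) ?_
      have hl2 : Low {x | ∃ y ∈ (M.erase m).image (· ⊓ m), x ≤ y} {x | ∃ y ∈ M.erase m, x ≤ y} := by
        constructor
        · rintro x ⟨y, hy, hx⟩
          obtain ⟨z, hz, rfl⟩ := Finset.mem_image.1 hy
          exact ⟨z, hz, hx.trans inf_le_left⟩
        · rintro x _ y ⟨z, hz, hy⟩ h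
          exact ⟨z, hz, h.trans hy⟩
      have hcv : Set.OrdConnected {x | ∃ y ∈ M.erase m, x ≤ y} := by
        constructor
        rintro x _ y ⟨z, hz, hy⟩ w hw
        exact ⟨z, hz, hw.2.trans hy⟩
      have h3 := d.quo' hcv hl2 h2 n (h1 n)
      convert h3 using 1
      ext x
      constructor
      · rintro ⟨⟨y, hy, hx⟩, hxm⟩
        refine ⟨⟨y, Finset.mem_erase.2 ⟨fun h => hxm (h ▸ hx), hy⟩, hx⟩, ?_⟩
        rintro ⟨z, hz, hxz⟩
        obtain ⟨w, _, rfl⟩ := Finset.mem_image.1 hz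
        exact hxm (hxz.trans inf_le_right)
      · rintro ⟨⟨y, hy, hx⟩, hxm⟩
        exact ⟨⟨y, Finset.mem_of_mem_erase hy, hx⟩,
          fun h => hxm ⟨y ⊓ m, Finset.mem_image_of_mem _ hy, le_inf hx h⟩⟩

theorem cone (a H : P) (ha : ¬ a ≤ K) (n : ℕ) : d.V {L | L ⊔ a < H} n := by
  classical
  have := Fintype.ofFinite P
  have h := d.union a ha (Finset.univ.filter fun m => a ≤ m ∧ m < H)
    (fun m hm => (Finset.mem_filter.1 hm).2.1) n
  convert h using 2
  ext x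
  constructor
  · intro hx
    exact ⟨x ⊔ a, Finset.mem_filter.2 ⟨Finset.mem_univ _, le_sup_right, hx⟩, le_sup_left⟩
  · rintro ⟨m, hm, hx⟩
    have := (Finset.mem_filter.1 hm).2
    exact lt_of_le_of_lt (sup_le hx this.1) this.2

omit [Finite P] in
theorem low_cone (a H : P) : Low {L | L ⊔ a < H} (Iio H) :=
  ⟨fun _ hx => lt_of_le_of_lt le_sup_left hx,
    fun _ _ _ hy h => lt_of_le_of_lt (sup_le_sup_right h a) hy⟩

theorem up (a H : P) (ha : ¬ a ≤ K) (n : ℕ) (h : ∀ L, L < H → ¬ L ⊔ a < H → d.V {L} n) :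
    d.V {H} (n + 1) :=
  d.sing_succ H n (d.mid (low_cone a H) n (d.cone a H ha n) (d.filt n _ fun L hL => h L hL.1 hL.2))

theorem down (a H c : P) (ha : ¬ a ≤ K) (hc1 : c < H) (hc2 : ¬ c ⊔ a < H) (hc3 : K ≤ c)
    (anti : ∀ L L', K ≤ L → L ≤ L' → L' < H → ¬ L ⊔ a < H → L' ≤ L) (n : ℕ)
    (h : d.V {H} (n + 1)) : d.V {c} n := by
  have h1 := d.Iio_of_sing H (fun h => absurd (h ▸ hc3) (not_le_of_gt hc1)) n h
  have h2 := d.quo' ordConnected_Iio (low_cone a H) (d.cone a H ha) n h1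
  have c2 := (low_cone a H).c2 ordConnected_Iio
  have hl : Low {L | L ∈ Iio H \ {L | L ⊔ a < H} ∧ ¬ K ≤ L} (Iio H \ {L | L ⊔ a < H}) :=
    ⟨fun _ hx => hx.1, fun _ hx _ hy h => ⟨hx, fun h' => hy.2 (h'.trans h)⟩⟩
  have h3 := d.quo' c2 hl (fun m => d.filt m _ fun L hL => d.not_ge L m hL.2) n h2
  have key : ∀ x ∈ (Iio H \ {L | L ⊔ a < H}) \ {L | L ∈ Iio H \ {L | L ⊔ a < H} ∧ ¬ K ≤ L},
      ∀ y ∈ (Iio H \ {L | L ⊔ a < H}) \ {L | L ∈ Iio H \ {L | L ⊔ a < H} ∧ ¬ K ≤ L},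
      x ≤ y → x = y := by
    intro x hx y hy hxy
    refine le_antisymm hxy (anti x y ?_ hxy hy.1.1 hx.1.2)
    by_contra h'
    exact hx.2 ⟨hx.1, h'⟩
  have hc : c ∈ (Iio H \ {L | L ⊔ a < H}) \ {L | L ∈ Iio H \ {L | L ⊔ a < H} ∧ ¬ K ≤ L} :=
    ⟨⟨hc1, hc2⟩, fun h' => h'.2 hc3⟩
  refine d.ret (hl.c2 c2) ⟨singleton_subset_iff.2 hc, ?_⟩ ⟨sdiff_subset, ?_⟩ n h3
  · intro x hx y hy hxy
    rw [mem_singleton_iff] at hy
    subst hy
    exact key x hx y hc hxy
  · intro x hx y hy hxy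
    rw [key x hx y hy.1 hxy]
    exact hy

end VD

universe w v u

structure Thin (C : Type u) [Category.{v} C] [Abelian C] (P : Type) [PartialOrder P] where
  T : ∀ U : Set P, U.OrdConnected → C
  ses : ∀ {U U' : Set P} (hU : U.OrdConnected) (h : Low U' U),
    ∃ (f : T U' (h.c1 hU) ⟶ T U hU) (g : T U hU ⟶ T (U \ U') (h.c2 hU)) (w : f ≫ g = 0),
      (ShortComplex.mk f g w).ShortExact
  ret : ∀ {U U' : Set P} (hU : U.OrdConnected) (h : Low U' U), Low (U \ U') U →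
    ∃ (f : T U' (h.c1 hU) ⟶ T U hU) (g : T U hU ⟶ T U' (h.c1 hU)), f ≫ g = 𝟙 _
  proj : ∀ x, Projective (T (Iic x) ordConnected_Iic)
  zero : IsZero (T ∅ ordConnected_empty)

variable {C : Type u} [Category.{v} C] [Abelian C] [HasExt.{w} C] {P : Type} [PartialOrder P]

def Thin.vd (t : Thin C P) (S : C) (K : P)
    (h0 : ∀ x, x ≠ K → ∀ f : t.T (Iic x) ordConnected_Iic ⟶ S, f = 0) : VD P K where
  V U n := ∀ hU : U.OrdConnected, ∀ e : Ext.{w} (t.T U hU) S n, e = 0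
  mid h n h1 h2 hU e := by
    obtain ⟨f, g, w, hS⟩ := t.ses hU h
    obtain ⟨y, hy⟩ := Ext.contravariant_sequence_exact₂ hS S e (h1 _ _)
    rw [← hy, h2 _ y, Ext.comp_zero]
  quo hU h n h1 h2 _ e := by
    obtain ⟨f, g, w, hS⟩ := t.ses hU h
    obtain ⟨y, hy⟩ := Ext.contravariant_sequence_exact₃ hS S e (h2 _ _) (n₀ := n) (add_comm _ _)
    rw [← hy, h1 _ y, Ext.comp_zero]
  quo0 hU h h1 _ e := by
    obtain ⟨f, g, w, hS⟩ := t.ses hU h
    have := hS.epi_g
    obtain ⟨e, rfl⟩ := (Ext.mk₀_bijective _ _).2 e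
    have h2 := h1 hU (Ext.mk₀ (g ≫ e))
    rw [Ext.mk₀_eq_zero_iff] at h2 ⊢
    exact zero_of_epi_comp g h2
  sub hU h n h1 h2 _ e := by
    obtain ⟨f, g, w, hS⟩ := t.ses hU h
    obtain ⟨y, hy⟩ := Ext.contravariant_sequence_exact₁ hS S e (n₁ := n + 1) (add_comm _ _) (h2 _ _)
    rw [← hy, h1 _ y, Ext.comp_zero]
  ret hU h h' n h1 _ e := by
    obtain ⟨f, g, hfg⟩ := t.ret hU h h'
    rw [← e.mk₀_id_comp, ← hfg, ← Ext.mk₀_comp_mk₀_assoc, h1 _ ((Ext.mk₀ g).comp e (zero_add n)),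
      Ext.comp_zero]
  proj x n _ e := by
    have := t.proj x
    exact Ext.eq_zero_of_projective e
  proj0 x hx _ e := by
    obtain ⟨e, rfl⟩ := (Ext.mk₀_bijective _ _).2 e
    rw [h0 x hx e, Ext.mk₀_zero]
  empty n _ e := by
    rw [← e.mk₀_id_comp, t.zero.eq_of_src (𝟙 _) 0, Ext.mk₀_zero, Ext.zero_comp]

end Pool.Agent.H.MP_70614a_al
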