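import Pool.Agent.H.MP_70614a_al.A

namespace Pool.Agent.H.MP_70614a_al

open CategoryTheory CategoryTheory.Abelian CategoryTheory.Limits Set

variable {P : Type} [PartialOrder P] [LocallyFiniteOrder P] [DecidableEq P] [Fintype P]

abbrev IA (P : Type) [PartialOrder P] : Type := IncidenceAlgebra ℚ P

omit [DecidableEq P] in
theorem mul_univ (f g : IA P) (a b : P) : (f * g) a b = ∑ x, f a x * g x b := by
  rw [IncidenceAlgebra.mul_apply]
  refine Finset.sum_subset (Finset.subset_univ _) fun x _ hx => ?_
  rw [Finset.mem_Icc, not_and_or] at hx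
  rcases hx with h | h
  · rw [IncidenceAlgebra.apply_eq_zero_of_not_le h, zero_mul]
  · rw [IncidenceAlgebra.apply_eq_zero_of_not_le h, mul_zero]

variable (W : Type) [AddCommGroup W] [Module ℚ W]

def supp (U : Set P) : Submodule ℚ (P → W) where
  carrier := {v | ∀ x, x ∉ U → v x = 0}
  add_mem' ha hb x hx := by rw [Pi.add_apply, ha x hx, hb x hx, add_zero]
  zero_mem' _ _ := rfl
  smul_mem' c v hv x hx := by rw [Pi.smul_apply, hv x hx, smul_zero]

def Th (U : Set P) (_ : U.OrdConnected) : Type := supp W U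

variable {W}

instance (U : Set P) (h : U.OrdConnected) : AddCommGroup (Th W U h) :=
  inferInstanceAs (AddCommGroup (supp W U))

instance (U : Set P) (h : U.OrdConnected) : Module ℚ (Th W U h) :=
  inferInstanceAs (Module ℚ (supp W U))

open Classical in
noncomputable instance (U : Set P) (h : U.OrdConnected) : SMul (IA P) (Th W U h) where
  smul f v := ⟨fun x => if x ∈ U then ∑ y, f x y • v.1 y else 0, fun _ hx => if_neg hx⟩

section

variable {U : Set P} {h : U.OrdConnected}

omit [LocallyFiniteOrder P] [DecidableEq P] in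
theorem smul_val (f : IA P) (v : Th W U h) {x : P} (hx : x ∈ U) :
    (f • v).1 x = ∑ y, f x y • v.1 y := if_pos hx

omit [LocallyFiniteOrder P] [DecidableEq P] [Fintype P] in
theorem Th.ext {v w : Th W U h} (e : ∀ x ∈ U, v.1 x = w.1 x) : v = w := by
  apply Subtype.ext
  funext x
  by_cases hx : x ∈ U
  · exact e x hx
  · rw [v.2 x hx, w.2 x hx]

omit [LocallyFiniteOrder P] [DecidableEq P] [Fintype P] in
theorem add_val (v w : Th W U h) (x : P) : (v + w).1 x = v.1 x + w.1 x := rfl

omit [LocallyFiniteOrder P] [DecidableEq P] [Fintype P] in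
theorem zero_val (x : P) : (0 : Th W U h).1 x = 0 := rfl

omit [LocallyFiniteOrder P] [DecidableEq P] [Fintype P] in
theorem sum_val {ι : Type} (s : Finset ι) (v : ι → Th W U h) (x : P) :
    (∑ i ∈ s, v i).1 x = ∑ i ∈ s, (v i).1 x := by
  classical
  induction s using Finset.induction_on with
  | empty => rfl
  | insert a s ha ih => rw [Finset.sum_insert ha, Finset.sum_insert ha, add_val, ih]

end

noncomputable instance (U : Set P) (h : U.OrdConnected) : Module (IA P) (Th W U h) where
  one_smul v := Th.ext fun x hx => by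
    rw [smul_val _ _ hx]
    simp [ite_smul]
  mul_smul f g v := Th.ext fun x hx => by
    rw [smul_val _ _ hx, smul_val _ _ hx]
    simp only [mul_univ, Finset.sum_smul, mul_smul]
    rw [Finset.sum_comm]
    refine Finset.sum_congr rfl fun y _ => ?_
    rw [← Finset.smul_sum]
    by_cases hy : y ∈ U
    · rw [smul_val _ _ hy]
    · by_cases hxy : x ≤ y
      · rw [(g • v).2 y hy, Finset.sum_eq_zero]
        intro z _
        by_cases hyz : y ≤ z
        · rw [v.2 z fun hz => hy (h.out hx hz ⟨hxy, hyz⟩), smul_zero]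
        · rw [IncidenceAlgebra.apply_eq_zero_of_not_le hyz, zero_smul]
      · rw [IncidenceAlgebra.apply_eq_zero_of_not_le hxy, zero_smul, zero_smul]
  smul_zero f := Th.ext fun x hx => by
    rw [smul_val _ _ hx]
    simp [zero_val]
  smul_add f v w := Th.ext fun x hx => by
    rw [add_val, smul_val _ _ hx, smul_val _ _ hx, smul_val _ _ hx, ← Finset.sum_add_distrib]
    simp only [add_val, smul_add]
  add_smul f g v := Th.ext fun x hx => by
    rw [add_val, smul_val _ _ hx, smul_val _ _ hx, smul_val _ _ hx, ← Finset.sum_add_distrib]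
    simp only [IncidenceAlgebra.add_apply, add_smul]
  zero_smul v := Th.ext fun x hx => by
    rw [smul_val _ _ hx]
    simp [zero_val]

open Classical in
noncomputable def rmap {U U' : Set P} (h : U.OrdConnected) (h' : U'.OrdConnected)
    (c : ∀ x ∈ U', ∀ y ∈ U, x ≤ y → (x ∈ U ↔ y ∈ U')) : Th W U h →ₗ[IA P] Th W U' h' where
  toFun v := ⟨fun x => if x ∈ U' then v.1 x else 0, fun _ hx => if_neg hx⟩
  map_add' v w := Th.ext fun x hx => by
    rw [add_val]
    simp only [if_pos hx, add_val]
  map_smul' f v := Th.ext fun x hx => by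
    rw [RingHom.id_apply, smul_val _ _ hx]
    simp only [if_pos hx]
    have : ∀ y, f x y • (if y ∈ U' then v.1 y else 0) = if x ∈ U then f x y • v.1 y else 0 := by
      intro y
      by_cases hy : y ∈ U
      · by_cases hxy : x ≤ y
        · by_cases hxU : x ∈ U
          · rw [if_pos hxU, if_pos ((c x hx y hy hxy).1 hxU)]
          · rw [if_neg hxU, if_neg fun h => hxU ((c x hx y hy hxy).2 h), smul_zero]
        · simp [IncidenceAlgebra.apply_eq_zero_of_not_le hxy]
      · simp [v.2 y hy]
    simp only [this]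
    by_cases hxU : x ∈ U
    · simp only [if_pos hxU, smul_val _ _ hxU]
    · simp only [if_neg hxU, (f • v).2 x hxU, Finset.sum_const_zero]

theorem rmap_val {U U' : Set P} (h : U.OrdConnected) (h' : U'.OrdConnected)
    (c : ∀ x ∈ U', ∀ y ∈ U, x ≤ y → (x ∈ U ↔ y ∈ U')) (v : Th W U h) {x : P} (hx : x ∈ U') :
    (rmap h h' c v).1 x = v.1 x := if_pos hx

open Classical in
noncomputable def E (y x : P) : IA P :=
  ⟨fun a b => if a = y ∧ b = x ∧ a ≤ b then 1 else 0, fun _ _ h => if_neg fun h' => h h'.2.2⟩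

open Classical in
omit [LocallyFiniteOrder P] [Fintype P] in
theorem E_apply (y x a b : P) : E y x a b = if a = y ∧ b = x ∧ a ≤ b then 1 else 0 := rfl

omit [LocallyFiniteOrder P] [DecidableEq P] in
theorem sum_apply' {ι : Type} (s : Finset ι) (f : ι → IA P) (a b : P) :
    (∑ i ∈ s, f i) a b = ∑ i ∈ s, f i a b := by
  classical
  induction s using Finset.induction_on with
  | empty => rfl
  | insert i s hi ih =>
    rw [Finset.sum_insert hi, Finset.sum_insert hi, IncidenceAlgebra.add_apply, ih]

theorem mulE (g : IA P) {z x : P} (h : z ≤ x) : g * E z x = ∑ y, g y z • E y x := by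
  ext a b hab
  rw [mul_univ, sum_apply', Finset.sum_eq_single z, Finset.sum_eq_single a]
  · rw [IncidenceAlgebra.constSMul_apply, E_apply, E_apply, smul_eq_mul]
    by_cases hb : b = x
    · subst hb
      simp [h, hab]
    · simp [hb]
  · intro y _ hy
    rw [IncidenceAlgebra.constSMul_apply, E_apply, if_neg fun h => hy h.1.symm, smul_zero]
  · simp
  · intro y _ hy
    rw [E_apply, if_neg fun h => hy h.1, mul_zero]
  · simp

omit [LocallyFiniteOrder P] [Fintype P] in
theorem E_zero {y x : P} (h : ¬ y ≤ x) : E y x = 0 := by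
  ext a b hab
  rw [E_apply, if_neg]
  · rfl
  · rintro ⟨rfl, rfl, _⟩
    exact h hab

def dl (x : P) : W →+ Th W (Iic x) ordConnected_Iic where
  toFun w := ⟨fun y => if y = x then w else 0, fun _ hy => if_neg fun h => hy (le_of_eq h)⟩
  map_zero' := Th.ext fun _ _ => ite_self _
  map_add' a b := Th.ext fun y _ => by
    change (if y = x then a + b else 0) = (if y = x then a else 0) + if y = x then b else 0
    split_ifs
    · rfl
    · rw [add_zero]

omit [LocallyFiniteOrder P] [Fintype P] in
theorem dl_val (x : P) (w : W) (y : P) : (dl x w).1 y = if y = x then w else 0 := rfl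

omit [LocallyFiniteOrder P] in
theorem E_dl (y x : P) (w : W) {a : P} (ha : a ≤ x) :
    (E y x • dl x w).1 a = if a = y then w else 0 := by
  rw [smul_val _ _ (show a ∈ Iic x from ha), Finset.sum_eq_single x]
  · rw [dl_val, if_pos rfl, E_apply]
    by_cases h : a = y
    · rw [if_pos ⟨h, rfl, ha⟩, if_pos h, one_smul]
    · rw [if_neg fun h' => h h'.1, if_neg h, zero_smul]
  · intro b _ hb
    rw [E_apply, if_neg fun h => hb h.2.1, zero_smul]
  · simp

theorem gen (x : P) (v : Th W (Iic x) ordConnected_Iic) : v = ∑ y, E y x • dl x (v.1 y) :=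
  Th.ext fun a ha => by
    rw [sum_val]
    simp only [E_dl _ _ _ ha]
    simp

theorem proj_Th (x : P) : Module.Projective (IA P) (Th W (Iic x) ordConnected_Iic) := by
  refine Module.Projective.of_lifting_property'' fun f hf => ?_
  obtain ⟨ψ, hψ⟩ := Module.projective_lifting_property f.toAddMonoidHom.toRatLinearMap
    (dl (W := W) x).toRatLinearMap hf
  refine ⟨{ toFun := fun v => ∑ y, E y x • ψ (v.1 y)
            map_add' := fun v w => ?_
            map_smul' := fun g v => ?_ }, ?_⟩
  · simp only [add_val, map_add, smul_add, Finset.sum_add_distrib]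
  · rw [RingHom.id_apply, Finset.smul_sum]
    have h1 : ∀ y, E y x • ψ ((g • v).1 y) = ∑ z, (g y z • E y x) • ψ (v.1 z) := by
      intro y
      by_cases hy : y ≤ x
      · rw [smul_val _ _ (show y ∈ Iic x from hy), map_sum, Finset.smul_sum]
        refine Finset.sum_congr rfl fun z _ => ?_
        rw [map_smul, smul_assoc, smul_comm]
      · simp [E_zero hy]
    simp only [h1]
    rw [Finset.sum_comm]
    refine Finset.sum_congr rfl fun z _ => ?_
    by_cases hz : z ≤ x
    · rw [← mul_smul, mulE g hz, Finset.sum_smul]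
    · simp [v.2 z hz]
  · ext1 v
    change f (∑ y, E y x • ψ (v.1 y)) = v
    rw [map_sum]
    conv_rhs => rw [gen x v]
    refine Finset.sum_congr rfl fun y _ => ?_
    rw [map_smul]
    exact congrArg _ (LinearMap.congr_fun hψ (v.1 y))

theorem hom_zero (x : P) {S : Type} [AddCommGroup S] [Module (IA P) S] (h : ∀ s : S, E x x • s = 0)
    (f : Th W (Iic x) ordConnected_Iic →ₗ[IA P] S) : f = 0 := by
  ext v
  have h1 : ∀ w : W, dl x w = E x x • dl x w := fun w => Th.ext fun a ha => by
    rw [E_dl _ _ _ ha, dl_val]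
  rw [gen x v, map_sum]
  refine Finset.sum_eq_zero fun y _ => ?_
  rw [map_smul, h1, map_smul, h, smul_zero]

omit [LocallyFiniteOrder P] [DecidableEq P] [Fintype P] in
theorem c_low {U U' : Set P} (h : Low U' U) : ∀ x ∈ U, ∀ y ∈ U', x ≤ y → (x ∈ U' ↔ y ∈ U) :=
  fun x hx y hy hxy => ⟨fun _ => h.1 hy, fun _ => h.2 x hx y hy hxy⟩

omit [LocallyFiniteOrder P] [DecidableEq P] [Fintype P] in
theorem c_quo {U U' : Set P} (h : Low U' U) :
    ∀ x ∈ U \ U', ∀ y ∈ U, x ≤ y → (x ∈ U ↔ y ∈ U \ U') :=
  fun x hx y hy hxy => ⟨fun _ => ⟨hy, fun h' => hx.2 (h.2 x hx.1 y h' hxy)⟩, fun _ => hx.1⟩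

omit [LocallyFiniteOrder P] [DecidableEq P] [Fintype P] in
theorem c_ret {U U' : Set P} (h : Low U' U) (h' : Low (U \ U') U) :
    ∀ x ∈ U', ∀ y ∈ U, x ≤ y → (x ∈ U ↔ y ∈ U') :=
  fun x hx y hy hxy =>
    ⟨fun hxU => by_contra fun hy' => (h'.2 x hxU y ⟨hy, hy'⟩ hxy).2 hx, fun _ => h.1 hx⟩

variable (W P)

noncomputable def thin : Thin (ModuleCat.{0} (IA P)) P where
  T U h := ModuleCat.of _ (Th W U h)
  ses {U U'} hU h := by
    let f := rmap (W := W) (h.c1 hU) hU (c_low h)
    let g := rmap (W := W) hU (h.c2 hU) (c_quo h)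
    have hfg : Function.Exact f g := by
      intro v
      constructor
      · intro hv
        have h1 : ∀ x, x ∉ U' → v.1 x = 0 := by
          intro x hx
          by_cases hxU : x ∈ U
          · rw [← rmap_val hU (h.c2 hU) (c_quo h) v ⟨hxU, hx⟩]
            exact congrFun (congrArg Subtype.val hv) x
          · exact v.2 x hxU
        exact ⟨⟨v.1, h1⟩, Th.ext fun x hx => rmap_val _ _ _ _ hx⟩
      · rintro ⟨w, rfl⟩
        exact Th.ext fun x hx => by
          rw [rmap_val _ _ _ _ hx, rmap_val _ _ _ _ hx.1]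
          exact w.2 x hx.2
    have hf : Function.Injective f := by
      intro v w hvw
      refine Th.ext fun x hx => ?_
      rw [← rmap_val (h.c1 hU) hU (c_low h) v (h.1 hx), ← rmap_val (h.c1 hU) hU (c_low h) w (h.1 hx)]
      exact congrFun (congrArg Subtype.val hvw) x
    have hg : Function.Surjective g := fun w =>
      ⟨⟨w.1, fun x hx => w.2 x fun h' => hx h'.1⟩, Th.ext fun x hx => rmap_val _ _ _ _ hx⟩
    refine ⟨ModuleCat.ofHom f, ModuleCat.ofHom g, ?_, ModuleCat.shortComplex_shortExact _ hfg hf hg⟩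
    ext w
    exact hfg.apply_apply_eq_zero w
  ret {U U'} hU h h' := by
    have key : (rmap (W := W) hU (h.c1 hU) (c_ret h h')).comp (rmap (h.c1 hU) hU (c_low h))
        = LinearMap.id := by
      ext1 v
      exact Th.ext fun x hx => (rmap_val hU (h.c1 hU) (c_ret h h') _ hx).trans
        (rmap_val (h.c1 hU) hU (c_low h) v (h.1 hx))
    refine ⟨ModuleCat.ofHom (rmap (W := W) (h.c1 hU) hU (c_low h)),
      ModuleCat.ofHom (rmap (W := W) hU (h.c1 hU) (c_ret h h')), ?_⟩
    rw [← ModuleCat.ofHom_comp, key]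
    rfl
  proj x := by
    have := proj_Th (W := W) x
    infer_instance
  zero := by
    have : Subsingleton (Th W (∅ : Set P) ordConnected_empty) :=
      ⟨fun a b => Th.ext fun x hx => hx.elim⟩
    exact ModuleCat.isZero_of_subsingleton _

end Pool.Agent.H.MP_70614a_al
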