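import Pool.Agent.H.MP_70614a_al.A

namespace Pool.Agent.H.MP_70614a_al

open SemidirectProduct

structure Q where
  i : ZMod 12
  b : Bool
  deriving DecidableEq, Fintype

instance : Mul Q where
  mul p q := ⟨if p.b then (if q.b then p.i - q.i + 6 else p.i - q.i) else p.i + q.i, xor p.b q.b⟩
instance : One Q := ⟨⟨0, false⟩⟩
instance : Inv Q where
  inv p := ⟨if p.b then p.i + 6 else -p.i, p.b⟩

instance : Group Q :=
  Group.ofLeftAxioms (by decide +kernel) (by decide +kernel) (by decide +kernel)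

abbrev F : Type := ZMod 11
instance : Fact (Nat.Prime 11) := ⟨by norm_num⟩
abbrev N : Type := Multiplicative (F × F)

def tab (l l' : List F) (q : Q) : F := (if q.b then l' else l).getD q.i.val 0
def m1 : Q → F := tab [1, 0, 10, 6, 9, 6, 10, 0, 1, 5, 2, 5] [2, 8, 5, 6, 3, 9, 9, 3, 6, 5, 8, 2]
def m2 : Q → F := tab [0, 10, 6, 9, 6, 10, 0, 1, 5, 2, 5, 1] [2, 2, 8, 5, 6, 3, 9, 9, 3, 6, 5, 8]
def m3 : Q → F := tab [0, 1, 5, 2, 5, 1, 0, 10, 6, 9, 6, 10] [3, 6, 5, 8, 2, 2, 8, 5, 6, 3, 9, 9]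
def m4 : Q → F := tab [1, 5, 2, 5, 1, 0, 10, 6, 9, 6, 10, 0] [9, 3, 6, 5, 8, 2, 2, 8, 5, 6, 3, 9]

def act (q : Q) (v : F × F) : F × F := (m1 q * v.1 + m2 q * v.2, m3 q * v.1 + m4 q * v.2)

theorem m_mul : ∀ p q : Q, m1 (p * q) = m1 p * m1 q + m2 p * m3 q ∧
    m2 (p * q) = m1 p * m2 q + m2 p * m4 q ∧ m3 (p * q) = m3 p * m1 q + m4 p * m3 q ∧
    m4 (p * q) = m3 p * m2 q + m4 p * m4 q := by decide +kernel

instance : MulDistribMulAction Q N where
  smul q v := Multiplicative.ofAdd (act q v.toAdd)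
  one_smul v := by
    change Multiplicative.ofAdd ((1 : F) * v.toAdd.1 + 0 * v.toAdd.2, (0 : F) * v.toAdd.1 + 1 * v.toAdd.2) = v
    simp
  mul_smul p q v := by
    change Multiplicative.ofAdd (act (p * q) v.toAdd) = Multiplicative.ofAdd (act p (act q v.toAdd))
    obtain ⟨h1, h2, h3, h4⟩ := m_mul p q
    simp only [act, h1, h2, h3, h4]
    congr 2 <;> ring
  smul_one q := by
    change Multiplicative.ofAdd (act q 0) = Multiplicative.ofAdd 0
    simp [act]
  smul_mul q v w := by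
    change Multiplicative.ofAdd (act q (v.toAdd + w.toAdd))
      = Multiplicative.ofAdd (act q v.toAdd + act q w.toAdd)
    simp only [act, Prod.fst_add, Prod.snd_add, Prod.mk_add_mk]
    congr 2 <;> ring

abbrev G : Type := N ⋊[MulDistribMulAction.toMulAut Q N] Q

instance : Finite G := Finite.of_equiv _ SemidirectProduct.equivProd.symm

def sg (p : Q → Bool) (h : p 1 = true ∧ (∀ a b, p a = true → p b = true → p (a * b) = true) ∧
    ∀ a, p a = true → p a⁻¹ = true) : Subgroup Q where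
  carrier := {q | p q = true}
  one_mem' := h.1
  mul_mem' ha hb := h.2.1 _ _ ha hb
  inv_mem' ha := h.2.2 _ ha

instance (p h) : DecidablePred (· ∈ sg p h) := fun q => inferInstanceAs (Decidable (p q = true))

abbrev R2 : Subgroup Q := sg (fun q => q.i.val % 6 == 0 && !q.b) (by decide +kernel)
abbrev R6 : Subgroup Q := sg (fun q => q.i.val % 2 == 0 && !q.b) (by decide +kernel)
abbrev A3 : Subgroup Q := sg (fun q => q.i.val % 4 == 0 && !q.b) (by decide +kernel)
abbrev A4 : Subgroup Q := sg (fun q => q.i.val % 3 == 0 && !q.b) (by decide +kernel)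
abbrev Q8 : Subgroup Q := sg (fun q => q.i.val % 3 == 0) (by decide +kernel)
abbrev C4 : Subgroup Q := sg (fun q => q.i.val % 6 == 0) (by decide +kernel)
abbrev QT : Subgroup Q := sg (fun _ => true) (by decide +kernel)

def z : Q := ⟨6, false⟩

theorem fpf : ∀ q : Q, act q (1, 0) = (1, 0) → q = 1 := by decide +kernel

theorem det_ne : ∀ q : Q, q ∉ R2 → ∀ v : F × F, v ≠ 0 →
    v.1 * (act q v).2 - v.2 * (act q v).1 ≠ 0 := by decide +kernel

def Nn : Subgroup G := (rightHom : G →* Q).ker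

instance : Nn.Normal := MonoidHom.normal_ker _

theorem mem_Nn {x : G} : x ∈ Nn ↔ x.right = 1 := Iff.rfl

theorem eq_inl {x : G} (h : x.right = 1) : x = inl x.left := by
  ext1
  · rfl
  · exact h

theorem card_R2 : Nat.card R2 = 2 := by
  rw [Nat.card_eq_fintype_card]; decide +kernel
theorem card_R6 : Nat.card R6 = 6 := by
  rw [Nat.card_eq_fintype_card]; decide +kernel
theorem card_QT : Nat.card QT = 24 := by
  rw [Nat.card_eq_fintype_card]; decide +kernel
theorem pow6 : ∀ q : Q, q ∉ R6 → q ^ 6 = z := by decide +kernel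
theorem z_comm : ∀ q : Q, q * z * q⁻¹ * z⁻¹ = 1 := by decide +kernel

def StepQ (A C H : Subgroup Q) : Prop :=
  (∀ g ∈ H, ∀ h, h ∈ A ↔ g * h * g⁻¹ ∈ A) ∧ (∀ x ∈ A, x ∈ H) ∧ (∃ x ∈ A, x ∉ R2) ∧
  (∀ x ∈ C, x ∈ H) ∧ (∃ x ∈ H, x ∉ C) ∧ (∀ x ∈ H, ∃ y ∈ C, ∃ w ∈ A, x = y * w) ∧
  (∀ x ∈ R2, x ∈ C) ∧ ∀ x ∈ A, x ∈ R2 ∨ ∀ y ∈ A, ∃ k : Fin 4, y = x ^ k.val

theorem step1 : StepQ A3 Q8 QT := by unfold StepQ; decide +kernel
theorem step2 : StepQ A4 C4 Q8 := by unfold StepQ; decide +kernel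
theorem step3 : StepQ C4 R2 C4 := by unfold StepQ; decide +kernel

end Pool.Agent.H.MP_70614a_al
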