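import Pool.Agent.H.MP_70614a_al.C

namespace Pool.Agent.H.MP_70614a_al

open SemidirectProduct

theorem conj_inl (g : G) (n : N) : g * inl n * g⁻¹ = inl (g.right • n) := by
  have h : g * inl n = inl (g.right • n) * g := by
    ext1
    · simp [mul_comm]
    · simp
  rw [h, mul_inv_cancel_right]

theorem irr (K : Subgroup G) (g : G) (hg : g.right ∉ R2) (hK : ∀ k ∈ K, g * k * g⁻¹ ∈ K)
    (x : G) (hx : x ∈ K) (h1 : x.right = 1) (h2 : x ≠ 1) : Nn ≤ K := by
  intro y hy
  rw [eq_inl h1] at hx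
  have hv : x.left.toAdd ≠ 0 := by
    intro h
    apply h2
    rw [eq_inl h1, show x.left = 1 from h, map_one]
  have hd := det_ne g.right hg _ hv
  have h3 := hK _ hx
  rw [conj_inl] at h3
  set v := x.left.toAdd with hv'
  set u := act g.right v with hu
  set w := y.left.toAdd with hw
  set D := v.1 * u.2 - v.2 * u.1 with hD
  have h4 : y.left = x.left ^ ((w.1 * u.2 - w.2 * u.1) / D).val
      * (g.right • x.left) ^ ((v.1 * w.2 - v.2 * w.1) / D).val := by
    apply Multiplicative.toAdd.injective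
    rw [toAdd_mul, toAdd_pow, toAdd_pow]
    change w = _ • v + _ • u
    ext
    · rw [Prod.fst_add, Prod.smul_fst, Prod.smul_fst, nsmul_eq_mul, nsmul_eq_mul,
        ZMod.natCast_zmod_val, ZMod.natCast_zmod_val]
      field_simp
      rw [hD]; ring
    · rw [Prod.snd_add, Prod.smul_snd, Prod.smul_snd, nsmul_eq_mul, nsmul_eq_mul,
        ZMod.natCast_zmod_val, ZMod.natCast_zmod_val]
      field_simp
      rw [hD]; ring
  rw [eq_inl (mem_Nn.1 hy), h4, map_mul, map_pow, map_pow]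
  exact K.mul_mem (K.pow_mem hx _) (K.pow_mem h3 _)

noncomputable def ht (H : Subgroup G) : ℕ := ArithmeticFunction.cardFactors (Nat.card H)

theorem om_le {a b : ℕ} (h : a ∣ b) (hb : b ≠ 0) :
    ArithmeticFunction.cardFactors a ≤ ArithmeticFunction.cardFactors b := by
  obtain ⟨c, rfl⟩ := h
  rw [ArithmeticFunction.cardFactors_mul (left_ne_zero_of_mul hb) (right_ne_zero_of_mul hb)]
  omega

theorem ht_mono : StrictMono ht := by
  intro K H h
  obtain ⟨c, hc⟩ := Subgroup.card_dvd_of_le h.le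
  have h0 : Nat.card H ≠ 0 := Nat.card_pos.ne'
  have h1 : c ≠ 1 := by
    rintro rfl
    exact h.ne (Subgroup.eq_of_le_of_card_ge h.le (by omega))
  rw [hc] at h0
  have h2 : 0 < ArithmeticFunction.cardFactors c := by
    rw [ArithmeticFunction.cardFactors_pos_iff_one_lt]
    have := right_ne_zero_of_mul h0
    omega
  rw [ht, ht, hc, ArithmeticFunction.cardFactors_mul (left_ne_zero_of_mul h0) (right_ne_zero_of_mul h0)]
  omega

theorem card_dvd1 (H : Subgroup G) (R : Subgroup Q) (h : ∀ x ∈ H, x.right ∈ R)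
    (h1 : ∀ x ∈ H, x.right = 1 → x = 1) : Nat.card H ∣ Nat.card R := by
  refine Subgroup.card_dvd_of_injective
    (((rightHom : G →* Q).comp H.subtype).codRestrict R fun x => h x x.2) ?_
  rw [injective_iff_map_eq_one]
  intro x hx
  exact Subtype.ext (h1 x x.2 (congrArg Subtype.val hx))

theorem card_dvd2 (H : Subgroup G) (h : ∀ x ∈ H, x.right ∈ R2) : Nat.card H ∣ 242 := by
  let f := (rightHom : G →* Q).comp H.subtype
  have h1 := f.ker.card_mul_index
  rw [Subgroup.index_ker] at h1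
  have h2 : Nat.card f.range ∣ 2 := by
    rw [← card_R2]
    apply Subgroup.card_dvd_of_le
    rintro _ ⟨x, rfl⟩
    exact h x x.2
  have h3 : Nat.card f.ker ∣ 121 := by
    have h4 : Nat.card Nn = 121 := by
      rw [Nn, ← range_inl_eq_ker_rightHom, ← Nat.card_congr (MonoidHom.ofInjective inl_injective).toEquiv]
      simp
    rw [← h4, ← Subgroup.card_map_of_injective H.subtype_injective]
    apply Subgroup.card_dvd_of_le
    rintro _ ⟨x, hx, rfl⟩
    exact hx
  rw [← h1]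
  exact Nat.mul_dvd_mul h3 h2

theorem om6 : ArithmeticFunction.cardFactors 6 = 2 := by
  rw [ArithmeticFunction.cardFactors_apply]; simp
theorem om24 : ArithmeticFunction.cardFactors 24 = 4 := by
  rw [ArithmeticFunction.cardFactors_apply]; simp
theorem om242 : ArithmeticFunction.cardFactors 242 = 3 := by
  rw [ArithmeticFunction.cardFactors_apply]; simp

theorem claim1 (d : VD (Subgroup G) ⊥) (L : Subgroup G) (hL : ∀ x ∈ L, x.right = 1 → x = 1)
    (m : ℕ) (hm : 3 ≤ m) : d.V {L} m := by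
  by_cases h : ∀ x ∈ L, x.right ∈ R6
  · refine d.height ht ht_mono L m ?_
    have := om_le (card_R6 ▸ card_dvd1 L R6 h hL) (by norm_num)
    rw [om6] at this
    unfold ht at *
    omega
  · push Not at h
    obtain ⟨g, hg, hg6⟩ := h
    have ht1 : (g ^ 6).right = z := by
      rw [← pow6 _ hg6]
      exact map_pow (rightHom : G →* Q) g 6
    have htL : g ^ 6 ∈ L := L.pow_mem hg 6
    have hc : ∀ y ∈ L, y * g ^ 6 = g ^ 6 * y := by
      intro y hy
      have := hL (y * g ^ 6 * y⁻¹ * (g ^ 6)⁻¹)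
        (L.mul_mem (L.mul_mem (L.mul_mem hy htL) (L.inv_mem hy)) (L.inv_mem htL))
        (by simp only [mul_right, inv_right, ht1]; exact z_comm _)
      rwa [mul_inv_eq_one, mul_inv_eq_iff_eq_mul] at this
    have h2 : (g ^ 6) ^ 2 = 1 := hL _ (L.pow_mem htL 2) (by
      rw [sq, mul_right, ht1]; decide)
    obtain ⟨n, rfl⟩ : ∃ n, m = n + 1 := ⟨m - 1, by omega⟩
    refine d.up (Subgroup.zpowers (g ^ 6)) L ?_ n ?_
    · intro h
      have := h (Subgroup.mem_zpowers _)
      rw [Subgroup.mem_bot] at this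
      rw [this] at ht1
      exact absurd ht1 (by decide)
    · intro M hM hs
      exfalso
      have h3 : M ⊔ Subgroup.zpowers (g ^ 6) = L :=
        eq_of_le_of_not_lt (sup_le hM.le (Subgroup.zpowers_le_of_mem htL)) hs
      have h4 : M ≤ Subgroup.normalizer (Subgroup.zpowers (g ^ 6) : Subgroup G) := by
        refine le_trans ?_ (Subgroup.centralizer_le_normalizer _)
        intro y hy w hw
        obtain ⟨k, rfl⟩ := Subgroup.mem_zpowers_iff.1 hw
        exact ((Commute.zpow_right (hc y (hM.le hy)) k).eq).symm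
      have h5 : g ^ 3 ∈ ((M ⊔ Subgroup.zpowers (g ^ 6) : Subgroup G) : Set G) := by
        rw [h3]; exact L.pow_mem hg 3
      rw [Subgroup.coe_mul_of_left_le_normalizer_right _ _ h4] at h5
      obtain ⟨y, hy, w, hw, hyw⟩ := h5
      obtain ⟨k, rfl⟩ := Subgroup.mem_zpowers_iff.1 hw
      have h6 : g ^ 6 = y ^ 2 := by
        have h7 : Commute y ((g ^ 6) ^ k) := Commute.zpow_right (hc y (hM.le hy)) k
        calc g ^ 6 = (g ^ 3) ^ 2 := by rw [← pow_mul]
          _ = (y * (g ^ 6) ^ k) ^ 2 := by rw [← hyw]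
          _ = y ^ 2 := by
            rw [h7.mul_pow, ← zpow_natCast ((g ^ 6) ^ k), zpow_comm, zpow_natCast, h2, one_zpow,
              mul_one]
      apply hs
      rw [sup_of_le_left (Subgroup.zpowers_le_of_mem (h6 ▸ M.pow_mem hy 2))]
      exact hM

theorem N_ne : (inl (Multiplicative.ofAdd (1, 0)) : G) ≠ 1 := by
  rw [Ne, map_eq_one_iff _ inl_injective]
  decide

theorem sup_right {L : Subgroup G} {g : G} (h : g ∈ L ⊔ Nn) : ∃ l ∈ L, l.right = g.right := by
  have h1 : g ∈ ((L ⊔ Nn : Subgroup G) : Set G) := h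
  rw [Subgroup.mul_normal] at h1
  obtain ⟨l, hl, n, hn, rfl⟩ := h1
  exact ⟨l, hl, by rw [mul_right, mem_Nn.1 hn, mul_one]⟩

theorem fratt (H : Subgroup G) (hN : Nn ≤ H) (g : G) (hg : g ∈ H) (hg2 : g.right ∉ R2) :
    (frattini H).map H.subtype = ⊥ := by
  set K := (frattini H).map H.subtype with hK
  have hn : ∀ h ∈ H, ∀ k ∈ K, h * k * h⁻¹ ∈ K := by
    rintro h hh _ ⟨k, hk, rfl⟩
    exact ⟨_, (inferInstance : (frattini H).Normal).conj_mem k hk ⟨h, hh⟩, rfl⟩
  have h1 : ∀ x ∈ K, x.right = 1 → x = 1 := by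
    intro x hx h1
    by_contra h2
    have h3 := irr K g hg2 (hn g hg) x hx h1 h2
    have h4 : ((inr : Q →* G).range.subgroupOf H) ⊔ frattini H = ⊤ := by
      rw [eq_top_iff]
      intro h _
      have a1 : (inl h.1.left : G) ∈ Nn := rfl
      have a2 : (inr h.1.right : G) ∈ H := by
        have := H.mul_mem (H.inv_mem (hN a1)) h.2
        have a4 : (inl h.1.left : G)⁻¹ * h.1 = inr h.1.right := by
          rw [inv_mul_eq_iff_eq_mul, inl_left_mul_inr_right]
        rwa [a4] at this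
      obtain ⟨k, hk, hk'⟩ := h3 a1
      have a3 : h = k * ⟨_, a2⟩ := by
        apply Subtype.ext
        rw [Subgroup.coe_mul, show (k : G) = inl h.1.left from hk', inl_left_mul_inr_right]
      rw [a3]
      exact Subgroup.mul_mem _ (Subgroup.mem_sup_right hk) (Subgroup.mem_sup_left ⟨_, rfl⟩)
    have h5 := frattini_nongenerating h4
    have h6 : (⟨inl (Multiplicative.ofAdd (1, 0)), hN rfl⟩ : H) ∈
        (inr : Q →* G).range.subgroupOf H := by rw [h5]; trivial
    obtain ⟨q, hq⟩ := h6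
    have h7 : (1 : N) = Multiplicative.ofAdd (1, 0) := congrArg SemidirectProduct.left hq
    exact absurd h7 (by decide)
  rw [eq_bot_iff]
  intro k hk
  let v : G := inl (Multiplicative.ofAdd (1, 0))
  have h2 := h1 (k * (v * k⁻¹ * v⁻¹)) (K.mul_mem hk (hn v (hN rfl) _ (K.inv_mem hk)))
    (by simp [v])
  rw [← mul_assoc, ← mul_assoc, mul_inv_eq_one, conj_inl] at h2
  exact h1 k hk (fpf _ (congrArg Multiplicative.toAdd (inl_injective h2)))

theorem vanish (H K : Subgroup G) (hK : K = (frattini H).map H.subtype) (d : VD (Subgroup G) K)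
    (n : ℕ) (hn : 4 ≤ n) : d.V {H} n := by
  by_cases hB : ∀ x ∈ H, x.right ∈ R2
  · refine d.height ht ht_mono H n ?_
    have := om_le (card_dvd2 H hB) (by norm_num)
    rw [om242] at this
    unfold ht at *
    omega
  push Not at hB
  obtain ⟨g, hg, hg2⟩ := hB
  by_cases hC : ∀ x ∈ H, x.right = 1 → x = 1
  · by_cases hb : K = ⊥
    · subst hb
      exact claim1 d H hC n (by omega)
    · refine d.height ht ht_mono H n ?_
      have h1 := om_le (card_QT ▸ card_dvd1 H QT (fun _ _ => rfl) hC) (by norm_num)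
      rw [om24] at h1
      have h2 := ht_mono (bot_lt_iff_ne_bot.2 hb)
      unfold ht at *
      omega
  push Not at hC
  obtain ⟨x, hx, hx1, hx2⟩ := hC
  have hN := irr H g hg2 (fun k hk => H.mul_mem (H.mul_mem hg hk) (H.inv_mem hg)) x hx hx1 hx2
  rw [fratt H hN g hg hg2] at hK
  subst hK
  obtain ⟨m, rfl⟩ : ∃ m, n = m + 1 := ⟨n - 1, by omega⟩
  refine d.up Nn H (fun h => N_ne (h (show _ ∈ Nn from rfl))) m fun L hL hs => ?_
  refine claim1 d L (fun y hy hy1 => ?_) m (by omega)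
  by_contra hy2
  have h3 : L ⊔ Nn = H := eq_of_le_of_not_lt (sup_le hL.le hN) hs
  obtain ⟨l, hl, hl2⟩ := sup_right (h3.symm ▸ hg)
  have h4 := irr L l (hl2 ▸ hg2) (fun k hk => L.mul_mem (L.mul_mem hl hk) (L.inv_mem hl)) y hy hy1 hy2
  apply hs
  rwa [sup_of_le_left h4]

theorem anti_of {Γ : Type} [Group Γ] (K a H : Subgroup Γ) (hn : H ≤ Subgroup.normalizer a)
    (haH : a ≤ H)
    (h5 : ∀ L L', K ≤ L → L ≤ L' → L' < H → L ⊔ a = H → ∀ b ∈ a, b ∈ L' → b ∈ K) :
    ∀ L L', K ≤ L → L ≤ L' → L' < H → ¬ L ⊔ a < H → L' ≤ L := by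
  intro L L' h1 h2 h3 h4 y hy
  have hL : L ≤ H := h2.trans h3.le
  have h6 : L ⊔ a = H := eq_of_le_of_not_lt (sup_le hL haH) h4
  have h7 : y ∈ ((L ⊔ a : Subgroup Γ) : Set Γ) := by rw [h6]; exact h3.le hy
  rw [Subgroup.coe_mul_of_left_le_normalizer_right _ _ (hL.trans hn)] at h7
  obtain ⟨l, hl, b, hb, rfl⟩ := h7
  exact L.mul_mem hl (h1 (h5 L L' h1 h2 h3 h6 b hb ((L'.mul_mem_cancel_left (h2 hl)).1 hy)))

def I (R : Subgroup Q) : Subgroup G := R.map inr

theorem mem_I {R : Subgroup Q} {q : Q} : (inr q : G) ∈ I R ↔ q ∈ R :=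
  Subgroup.mem_map_iff_mem inr_injective

theorem stepQ (d : VD (Subgroup G) (I R2)) {A C H : Subgroup Q} (h : StepQ A C H) (n : ℕ)
    (hV : d.V {I H} (n + 1)) : d.V {I C} n := by
  obtain ⟨h1, h2, ⟨x3, h3, h3'⟩, h4, ⟨x5, h5, h5'⟩, h6, h7, h8⟩ := h
  have hs : I C ⊔ I A = I H := by
    rw [I, I, ← Subgroup.map_sup]
    congr 1
    refine le_antisymm (sup_le h4 h2) fun x hx => ?_
    obtain ⟨y, hy, w, hw, rfl⟩ := h6 x hx
    exact Subgroup.mul_mem _ (Subgroup.mem_sup_left hy) (Subgroup.mem_sup_right hw)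
  refine d.down (I A) (I H) (I C) (fun h => h3' (mem_I.1 (h (mem_I.2 h3))))
    (lt_of_le_not_ge (Subgroup.map_mono h4) fun h => h5' (mem_I.1 (h (mem_I.2 h5))))
    (by rw [hs]; exact lt_irrefl _) (Subgroup.map_mono h7) (anti_of _ _ _ ?_ (Subgroup.map_mono h2) ?_)
    n hV
  · refine le_trans (Subgroup.map_mono ?_) (Subgroup.le_normalizer_map _)
    intro g hg
    exact Subgroup.mem_normalizer_iff.2 (h1 g hg)
  · rintro L L' _ k2 k3 k4 _ ⟨b, hb, rfl⟩ hb'
    rcases h8 b hb with k5 | k5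
    · exact mem_I.2 k5
    · exfalso
      refine not_le_of_gt k3 (k4 ▸ sup_le k2 ?_)
      rintro _ ⟨y, hy, rfl⟩
      obtain ⟨k, rfl⟩ := k5 y hy
      rw [map_pow]
      exact L'.pow_mem hb' _

theorem nonvanish (d : VD (Subgroup G) (I R2)) (hV : d.V {⊤} 4) : d.V {I R2} 0 := by
  refine stepQ d step3 0 (stepQ d step2 1 (stepQ d step1 2 ?_))
  have hv : ∀ R, (inl (Multiplicative.ofAdd (1, 0)) : G) ∉ I R := by
    rintro R ⟨q, _, hq⟩
    have h7 : (1 : N) = Multiplicative.ofAdd (1, 0) := congrArg SemidirectProduct.left hq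
    exact absurd h7 (by decide)
  have hs : I QT ⊔ Nn = ⊤ := by
    rw [eq_top_iff]
    intro x _
    rw [← inl_left_mul_inr_right x]
    exact Subgroup.mul_mem _ (Subgroup.mem_sup_right rfl) (Subgroup.mem_sup_left (mem_I.2 rfl))
  refine d.down Nn ⊤ (I QT) (fun h => hv _ (h (show _ ∈ Nn from rfl)))
    (lt_top_iff_ne_top.2 fun h => hv QT (h ▸ Subgroup.mem_top _))
    (by rw [hs]; exact lt_irrefl _) (Subgroup.map_mono fun _ _ => rfl)
    (anti_of _ _ _ Subgroup.le_normalizer_of_normal le_top ?_) 3 hV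
  intro L L' _ k2 k3 k4 b hb hb'
  by_cases hb1 : b = 1
  · rw [hb1]; exact Subgroup.one_mem _
  exfalso
  obtain ⟨l, hl, hl2⟩ := sup_right (g := inr ⟨1, false⟩) (k4.symm ▸ Subgroup.mem_top _)
  have h4 := irr L' l (by rw [hl2]; decide)
    (fun k hk => L'.mul_mem (L'.mul_mem (k2 hl) hk) (L'.inv_mem (k2 hl))) b hb' hb hb1
  exact not_le_of_gt k3 (k4 ▸ sup_le k2 h4)

end Pool.Agent.H.MP_70614a_al
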